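import Pool.Agent.Helper86.SG.Defs
import Pool.Agent.Helper33.SG.SUN

/-! SG package BOUND (third attempt, helper85) -/

set_option autoImplicit false

open Finset SG

open SJ (supp IsV dot fib)

namespace Pool.Agent.Helper85.SG

/-- the arithmetic of a `k`-set system: subsets of size `s` -/
theorem dsum {n : ℕ} (k s : ℕ) (E 𝒜 : Finset (Finset (Fin n))) (hE : ∀ S ∈ E, #S = k)
    (hA : ∀ A ∈ 𝒜, #A = s) :
    ∑ A ∈ 𝒜, #(E.filter (fun S => A ⊆ S)) ≤ k.choose s * #E := by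
  classical
  have h1 := Finset.sum_card_bipartiteAbove_eq_sum_card_bipartiteBelow (s := 𝒜) (t := E)
    (fun A S => A ⊆ S)
  have h2 : ∑ A ∈ 𝒜, #(E.filter fun S => A ⊆ S) =
      ∑ S ∈ E, #(𝒜.filter fun A => A ⊆ S) := h1
  rw [h2]
  have h3 : ∀ S ∈ E, #(𝒜.filter fun A => A ⊆ S) ≤ k.choose s := by
    intro S hS
    rw [← hE S hS, ← card_powersetCard]
    apply card_le_card
    intro A hA'
    rw [mem_filter] at hA'
    exact mem_powersetCard.mpr ⟨hA'.2, hA A hA'.1⟩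
  calc _ ≤ ∑ _S ∈ E, k.choose s := sum_le_sum h3
    _ = _ := by rw [sum_const, smul_eq_mul, mul_comm]

theorem bound (hSRC : SRCStm) (hSUM : SUMStm) (hUP : UPStm) (hCLS : CLSStm) (hLOW : LOWStm)
    (hRUL : RULStm) : BOUNDStm := by
  classical
  intro k d hk
  obtain ⟨s, hs⟩ : ∃ s, s = 2 * d + 2 := ⟨_, rfl⟩
  obtain ⟨m, hm⟩ : ∃ m, m = k - s := ⟨_, rfl⟩
  have hm1 : 1 ≤ m := by omega
  -- constants
  set D : ℕ := 2 ^ s * m ^ 2 * (k.choose s * (1 + 2 ^ k)) with hD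
  have hDpos : 0 < D := by
    have : 0 < k.choose s := Nat.choose_pos (by omega)
    positivity
  set P : ℕ := (2 * D).choose m with hP
  set C : ℕ := (1 + 2 ^ k) * (2 * P) with hC
  obtain ⟨B, hB⟩ := Pool.Agent.Helper33.SG.sun k s C (by omega)
  refine ⟨C * B, fun n F hF hbig => ?_⟩
  have hV := hF.1
  set E := EX k d F with hEdef
  set H := HH k d F with hHdef
  have hEk : ∀ S ∈ E, #S = k := by
    intro S hS
    rw [hEdef, EX, mem_union] at hS
    rcases hS with hS | hS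
    · exact (mem_powersetCard.mp (mem_filter.mp hS).1).2
    · exact (mem_powersetCard.mp (mem_filter.mp hS).1).2
  -- #LL ≤ 2^k h
  have hLL : #(LL k d F) ≤ 2 ^ k * #H := by
    have := hSUM n k d F hk hV
    rw [← hHdef] at this
    omega
  have hEX : #E ≤ (1 + 2 ^ k) * #H := by
    have h1 : #E ≤ #H + #(LL k d F) := card_union_le _ _
    calc #E ≤ #H + 2 ^ k * #H := h1.trans (Nat.add_le_add_left hLL _)
      _ = _ := by ring
  -- clashing sets
  set 𝒜 := (powersetCard s (univ : Finset (Fin n))).filter (fun A => ∃ v ∈ F, Clash F v A) with h𝒜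
  have hAs : ∀ A ∈ 𝒜, #A = s := fun A hA => (mem_powersetCard.mp (mem_filter.mp hA).1).2
  have hAc : ∀ A ∈ 𝒜, ∃ v ∈ F, Clash F v A := fun A hA => (mem_filter.mp hA).2
  have hlow : ∀ A : Finset (Fin n), ∃ μ : ℕ, A ∈ 𝒜 → #(DD F A) + (2 * d + 2) + μ = n ∧
      μ.choose (k - (2 * d + 2)) ≤ #(exP k d F A) := by
    intro A
    by_cases hA : A ∈ 𝒜
    · obtain ⟨v, hv, hcl⟩ := hAc A hA
      obtain ⟨μ, h1, h2⟩ := hLOW n k d F hk hV A ((hAs A hA).trans hs) v hv hcl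
      exact ⟨μ, fun _ => ⟨h1, h2⟩⟩
    · exact ⟨0, fun h => absurd h hA⟩
  choose μ hμ using hlow
  -- h ≤ ∑ cP
  have hH : #H ≤ ∑ A ∈ 𝒜, #(cP F A) := by
    have hsub : H ⊆ 𝒜.biUnion (fun A => cP F A) := by
      intro S hS
      obtain ⟨-, v, hv, hvS, A, hAc', hcl⟩ := mem_filter.mp hS
      rw [mem_biUnion]
      refine ⟨A, mem_filter.mpr ⟨mem_powersetCard.mpr ⟨subset_univ _, hAc'.trans hs.symm⟩,
        v, hv, hcl⟩, ?_⟩
      exact mem_image.mpr ⟨v, mem_filter.mpr ⟨hv, hcl⟩, hvS⟩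
    exact (card_le_card hsub).trans card_biUnion_le
  set XX := 𝒜.filter (fun A => μ A ≤ 2 * D) with hXX
  have hsplit : ∑ A ∈ 𝒜, #(cP F A) =
      ∑ A ∈ XX, #(cP F A) + ∑ A ∈ 𝒜.filter (fun A => ¬ μ A ≤ 2 * D), #(cP F A) :=
    (sum_filter_add_sum_filter_not 𝒜 _ _).symm
  have hup : ∀ A ∈ 𝒜, #(cP F A) ≤ 2 ^ s * (m * (μ A - 1).choose (m - 1)) ∧
      #(cP F A) ≤ (μ A).choose m := by
    intro A hA
    have := hUP n k d F hk hF A ((hAs A hA).trans hs) (μ A) (hμ A hA).1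
    rw [← hs, ← hm] at this
    exact this
  -- small μ
  have hsmall : ∑ A ∈ XX, #(cP F A) ≤ P * #XX := by
    calc ∑ A ∈ XX, #(cP F A) ≤ ∑ _A ∈ XX, P := by
          apply sum_le_sum
          intro A hA
          have h1 := mem_filter.mp hA
          exact (hup A h1.1).2.trans (Nat.choose_le_choose _ h1.2)
      _ = _ := by rw [sum_const, smul_eq_mul, mul_comm]
  -- large μ
  have hlarge : 2 * D * ∑ A ∈ 𝒜.filter (fun A => ¬ μ A ≤ 2 * D), #(cP F A) ≤ D * #H := by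
    calc 2 * D * ∑ A ∈ 𝒜.filter (fun A => ¬ μ A ≤ 2 * D), #(cP F A)
        = ∑ A ∈ 𝒜.filter (fun A => ¬ μ A ≤ 2 * D), 2 * D * #(cP F A) := mul_sum _ _ _
      _ ≤ ∑ A ∈ 𝒜.filter (fun A => ¬ μ A ≤ 2 * D), 2 ^ s * m ^ 2 * #(exP k d F A) := by
          apply sum_le_sum
          intro A hA
          obtain ⟨hA1, hA2⟩ := mem_filter.mp hA
          push Not at hA2
          have h1 := (hup A hA1).1
          have h2 := (hμ A hA1).2
          rw [← hs, ← hm] at h2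
          have h3 : μ A * (μ A - 1).choose (m - 1) = (μ A).choose m * m := by
            obtain ⟨a, ha⟩ : ∃ a, μ A = a + 1 := ⟨μ A - 1, by omega⟩
            obtain ⟨b, hb⟩ : ∃ b, m = b + 1 := ⟨m - 1, by omega⟩
            rw [ha, hb]
            simpa using Nat.add_one_mul_choose_eq a b
          calc 2 * D * #(cP F A) ≤ μ A * #(cP F A) := Nat.mul_le_mul_right _ hA2.le
            _ ≤ μ A * (2 ^ s * (m * (μ A - 1).choose (m - 1))) := Nat.mul_le_mul_left _ h1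
            _ = 2 ^ s * m * (μ A * (μ A - 1).choose (m - 1)) := by ring
            _ = 2 ^ s * m * ((μ A).choose m * m) := by rw [h3]
            _ = 2 ^ s * m ^ 2 * (μ A).choose m := by ring
            _ ≤ _ := Nat.mul_le_mul_left _ h2
      _ = 2 ^ s * m ^ 2 * ∑ A ∈ 𝒜.filter (fun A => ¬ μ A ≤ 2 * D), #(exP k d F A) :=
          (mul_sum _ _ _).symm
      _ ≤ 2 ^ s * m ^ 2 * ∑ A ∈ 𝒜, #(exP k d F A) := by
          apply Nat.mul_le_mul_left
          exact sum_le_sum_of_subset (filter_subset _ _)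
      _ ≤ 2 ^ s * m ^ 2 * (k.choose s * #E) := by
          apply Nat.mul_le_mul_left
          have := dsum k s E 𝒜 hEk hAs
          simpa [exP, hEdef] using this
      _ ≤ 2 ^ s * m ^ 2 * (k.choose s * ((1 + 2 ^ k) * #H)) := by
          apply Nat.mul_le_mul_left
          exact Nat.mul_le_mul_left _ hEX
      _ = D * #H := by rw [hD]; ring
  have hlarge' : 2 * ∑ A ∈ 𝒜.filter (fun A => ¬ μ A ≤ 2 * D), #(cP F A) ≤ #H := by
    have : D * (2 * ∑ A ∈ 𝒜.filter (fun A => ¬ μ A ≤ 2 * D), #(cP F A)) ≤ D * #H := by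
      calc _ = 2 * D * ∑ A ∈ 𝒜.filter (fun A => ¬ μ A ≤ 2 * D), #(cP F A) := by ring
        _ ≤ _ := hlarge
    exact Nat.le_of_mul_le_mul_left this hDpos
  have hh : #H ≤ 2 * P * #XX := by
    have e1 : 2 * P * #XX = 2 * (P * #XX) := by ring
    rw [e1]
    omega
  have hle : #E ≤ C * #XX := by
    calc #E ≤ (1 + 2 ^ k) * #H := hEX
      _ ≤ (1 + 2 ^ k) * (2 * P * #XX) := Nat.mul_le_mul_left _ hh
      _ = C * #XX := by rw [hC]; ring
  -- the source function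
  rcases Nat.eq_zero_or_pos n with hn0 | hn0
  · -- no k-sets at all
    have : E = ∅ := by
      rw [eq_empty_iff_forall_notMem]
      intro S hS
      have h1 := hEk S hS
      have h2 : #S ≤ n := by simpa using card_le_univ S
      omega
    rw [this]
    simp
  have hf : ∀ S : Finset (Fin n), ∃ f : Fin n, #S = k → S ∉ E → ∃ c, Str k d F S f c := by
    intro S
    by_cases h : #S = k ∧ S ∉ E
    · obtain ⟨f, c, hc⟩ := (hSRC n k d F hk hV S h.1).2 h.2
      exact ⟨f, fun _ _ => ⟨c, hc⟩⟩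
    · exact ⟨⟨0, hn0⟩, fun h1 h2 => absurd ⟨h1, h2⟩ h⟩
  choose f hf using hf
  have hHE : ∀ S, S ∉ E → S ∉ H := fun S hS hSH => hS (mem_union_left _ hSH)
  have hXB : #XX ≤ B := by
    apply hB (Fin n) E XX f
    refine ⟨hEk, fun X hX => hAs X (mem_filter.mp hX).1, ?_, ?_, ?_, hle⟩
    · intro S h1 h2
      obtain ⟨c, hc⟩ := hf S h1 h2
      exact hc.1
    · intro S S' h1 h1' h2 h2' h3 h4 h5
      obtain ⟨c, hc⟩ := hf S h1 h2
      obtain ⟨c', hc'⟩ := hf S' h1' h2'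
      exact (hRUL n k d F hk hV S S' h1 h1' (hHE S h2) (by omega) _ _ _ _ hc hc').1 h4 h5
    · intro X hX S h1 h2 hXS hfX
      obtain ⟨c, hc⟩ := hf S h1 h2
      have hX' := (mem_filter.mp hX).1
      obtain ⟨v, hv, hcl⟩ := hAc X hX'
      have := hCLS n k d F hk hV X ((hAs X hX').trans hs) v hv hcl S h1 (hHE S h2) hXS _ _ hc
      exact (mem_filter.mp this).2.1 hfX
  exact hle.trans (Nat.mul_le_mul_left _ hXB)

end Pool.Agent.Helper85.SG
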